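import Pool.Agent.Work.MP_e05d43_al.Growth

set_option autoImplicit false
open scoped Pointwise
open Filter Topology

namespace Pool.Agent.Work.MP_e05d43_al

variable {F : Type*} [Group F] {B : Set F}

/-- growth exponent of the quotient `F ⧸ N` -/
noncomputable def qrate (B : Set F) (N : Subgroup F) [N.Normal] : ℝ := rate B (QuotientGroup.mk' N)

theorem qrate_mono (hB : B.Finite) (h1 : (1 : F) ∈ B) (N M : Subgroup F) [N.Normal] [M.Normal]
    (h : N ≤ M) : qrate B M ≤ qrate B N :=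
  rate_mono hB h1 _ _ (by simpa using h)

theorem qrate_subadd (hB : B.Finite) (h1 : (1 : F) ∈ B) (N M K : Subgroup F) [N.Normal] [M.Normal]
    [K.Normal] (h : N ⊓ M ≤ K) : qrate B K ≤ qrate B N + qrate B M :=
  rate_subadd hB h1 _ _ _ (by simpa using h)

theorem qrate_top (hB : B.Finite) (h1 : (1 : F) ∈ B) : qrate B (⊤ : Subgroup F) = 0 := by
  have h := rate_spec hB h1 (QuotientGroup.mk' (⊤ : Subgroup F))
  have h0 : IsRate ((QuotientGroup.mk' (⊤ : Subgroup F)) '' B) 0 := by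
    have : (fun k : ℕ => lg ((QuotientGroup.mk' (⊤ : Subgroup F)) '' B) k / (k : ℝ))
        = fun _ => 0 := by
      funext k
      have : lg ((QuotientGroup.mk' (⊤ : Subgroup F)) '' B) k = 0 := by
        unfold lg
        have : (((QuotientGroup.mk' (⊤ : Subgroup F)) '' B) ^ k).ncard = 1 := by
          have hle : (((QuotientGroup.mk' (⊤ : Subgroup F)) '' B) ^ k).ncard ≤ 1 := by
            have : Subsingleton (F ⧸ (⊤ : Subgroup F)) := QuotientGroup.subsingleton_quotient_top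
            exact Set.ncard_le_one_of_subsingleton _
          have hpos := ncard_pow_pos (hB.image (QuotientGroup.mk' (⊤ : Subgroup F)))
            ⟨1, h1, map_one _⟩ k
          omega
        rw [this]; simp
      rw [this]; simp
    unfold IsRate
    rw [this]
    exact tendsto_const_nhds
  exact tendsto_nhds_unique h h0

/-- lower bound for the growth of an increasing union of normal subgroups -/
theorem le_qrate_iSup (hB : B.Finite) (h1 : (1 : F) ∈ B) (N : ℕ → Subgroup F) [∀ n, (N n).Normal]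
    (hN : Monotone N) [(⨆ n, N n).Normal] (ρ : ℝ) (hρ : ∀ n, ρ ≤ qrate B (N n)) :
    ρ ≤ qrate B (⨆ n, N n) := by
  refine ge_of_tendsto (rate_spec hB h1 (QuotientGroup.mk' (⨆ n, N n))) ?_
  filter_upwards [eventually_gt_atTop 0] with k hk
  have hk' : (0 : ℝ) < k := by exact_mod_cast hk
  rw [le_div_iff₀ hk']
  have hs := finite_pow hB k
  -- find a good index
  have hex : ∃ n, ∀ x ∈ B ^ k, ∀ y ∈ B ^ k, x⁻¹ * y ∈ (⨆ n, N n) → x⁻¹ * y ∈ N n := by
    classical
    have hdir : Directed (· ≤ ·) N := hN.directed_le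
    have hch : ∀ p : F × F, ∃ n, p.1⁻¹ * p.2 ∈ (⨆ n, N n) → p.1⁻¹ * p.2 ∈ N n := by
      intro p
      by_cases hp : p.1⁻¹ * p.2 ∈ (⨆ n, N n)
      · obtain ⟨n, hn⟩ := (Subgroup.mem_iSup_of_directed hdir).1 hp
        exact ⟨n, fun _ => hn⟩
      · exact ⟨0, fun h => absurd h hp⟩
    choose m hm using hch
    obtain ⟨n, hn⟩ := ((hs.prod hs).image m).bddAbove
    refine ⟨n, fun x hx y hy hxy => ?_⟩
    have h2 := hm (x, y) hxy
    exact hN (hn ⟨(x, y), ⟨hx, hy⟩, rfl⟩) h2
  obtain ⟨n, hn⟩ := hex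
  have hle : lg ((QuotientGroup.mk' (N n)) '' B) k ≤ lg ((QuotientGroup.mk' (⨆ n, N n)) '' B) k := by
    unfold lg
    rw [image_pow_eq, image_pow_eq]
    refine Real.log_le_log ?_ ?_
    · have : 0 < ((QuotientGroup.mk' (N n)) '' (B ^ k)).ncard :=
        (Set.ncard_pos (hs.image _)).2 ⟨1, 1, one_mem_pow h1 k, map_one _⟩
      exact_mod_cast this
    · have := ncard_image_le_of_factor hs (QuotientGroup.mk' (⨆ n, N n)) (QuotientGroup.mk' (N n)) (by
        intro x hx y hy hxy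
        have h3 : x⁻¹ * y ∈ (⨆ n, N n) := by
          have := QuotientGroup.eq.1 hxy
          exact this
        exact QuotientGroup.eq.2 (hn x hx y hy h3))
      exact_mod_cast this
  refine le_trans ?_ hle
  refine le_trans ?_ (rate_mul_le hB h1 (QuotientGroup.mk' (N n)) k)
  exact mul_le_mul_of_nonneg_right (hρ n) hk'.le

/-- The greedy argument: a family of normal subgroups indexed by sets of natural numbers,
all of whose residue classes modulo `2 ^ n` have small growth. -/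
theorem exists_qrate_eq (hB : B.Finite) (h1 : (1 : F) ∈ B) (N : Set ℕ → Subgroup F)
    [∀ V, (N V).Normal] (hanti : ∀ V W, V ⊆ W → N W ≤ N V) (hunion : ∀ V W, N V ⊓ N W ≤ N (V ∪ W))
    (hempty : N ∅ = ⊤) (δ : ℕ → ℝ) (hδ : Tendsto δ atTop (𝓝 0))
    (hC : ∀ n r : ℕ, qrate B (N {m | m % 2 ^ n = r}) ≤ δ n) (ρ : ℝ) (hρ : 0 < ρ)
    (hρ' : ρ ≤ qrate B (N Set.univ)) :
    ∃ M : Subgroup F, ∃ _ : M.Normal, qrate B M = ρ := by
  classical
  have hmono : ∀ V W, V ⊆ W → qrate B (N V) ≤ qrate B (N W) := fun V W h =>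
    qrate_mono hB h1 _ _ (hanti V W h)
  have hsub : ∀ V W, qrate B (N (V ∪ W)) ≤ qrate B (N V) + qrate B (N W) := fun V W =>
    qrate_subadd hB h1 _ _ _ (hunion V W)
  have h0 : qrate B (N ∅) = 0 := by
    have : ∀ (K : Subgroup F) [K.Normal], K = ⊤ → qrate B K = 0 := by
      intro K _ hK
      subst hK
      exact qrate_top hB h1
    exact this _ hempty
  -- one step
  have step : ∀ (n : ℕ) (V : Set ℕ), ρ ≤ qrate B (N V) →
      ∃ V' : Set ℕ, V' ⊆ V ∧ ρ ≤ qrate B (N V') ∧ qrate B (N V') ≤ ρ + δ n := by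
    intro n V hV
    let good : Finset (Fin (2 ^ n)) → Prop := fun R =>
      ρ ≤ qrate B (N (V ∩ {m | ∃ r ∈ R, m % 2 ^ n = (r : ℕ)}))
    have hgood : good Finset.univ := by
      refine le_trans hV (hmono _ _ ?_)
      intro m hm
      exact ⟨hm, ⟨⟨m % 2 ^ n, Nat.mod_lt _ (by positivity)⟩, Finset.mem_univ _, rfl⟩⟩
    obtain ⟨R, hR, hmin⟩ := Finset.exists_minimal (s := Finset.univ.filter good)
      ⟨Finset.univ, by simp [hgood]⟩
    have hR' : good R := by simpa using hR
    refine ⟨V ∩ {m | ∃ r ∈ R, m % 2 ^ n = (r : ℕ)}, Set.inter_subset_left, hR', ?_⟩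
    have hne : R.Nonempty := by
      rw [Finset.nonempty_iff_ne_empty]
      intro hRe
      have : (V ∩ {m | ∃ r ∈ R, m % 2 ^ n = (r : ℕ)}) ⊆ (∅ : Set ℕ) := by
        intro m hm
        obtain ⟨_, r, hr, _⟩ := hm
        rw [hRe] at hr
        simp at hr
      have h3 := hmono _ _ this
      have h4 : ρ ≤ qrate B (N (V ∩ {m | ∃ r ∈ R, m % 2 ^ n = (r : ℕ)})) := hR'
      linarith
    obtain ⟨r, hr⟩ := hne
    have hbad : ¬ good (R.erase r) := by
      intro hg
      have h5 := hmin (by simpa using hg) (Finset.erase_subset r R)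
      exact (Finset.notMem_erase r R) (h5 hr)
    have hbad' : qrate B (N (V ∩ {m | ∃ s ∈ R.erase r, m % 2 ^ n = (s : ℕ)})) < ρ := not_le.1 hbad
    have hcov : (V ∩ {m | ∃ s ∈ R, m % 2 ^ n = (s : ℕ)}) ⊆
        (V ∩ {m | ∃ s ∈ R.erase r, m % 2 ^ n = (s : ℕ)}) ∪ {m | m % 2 ^ n = (r : ℕ)} := by
      rintro m ⟨hm, s, hs, hms⟩
      by_cases hsr : s = r
      · right; rw [← hsr]; exact hms
      · left; exact ⟨hm, s, Finset.mem_erase.2 ⟨hsr, hs⟩, hms⟩
    have h6 := hmono _ _ hcov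
    have h7 := hsub (V ∩ {m | ∃ s ∈ R.erase r, m % 2 ^ n = (s : ℕ)}) {m | m % 2 ^ n = (r : ℕ)}
    have h8 := hC n r
    linarith
  -- the sequence
  let St := {V : Set ℕ // ρ ≤ qrate B (N V)}
  let nxt : ℕ → St → St := fun n V => ⟨(step n V.1 V.2).choose, (step n V.1 V.2).choose_spec.2.1⟩
  let sq : ℕ → St := fun n => Nat.rec ⟨Set.univ, hρ'⟩ (fun k V => nxt k V) n
  have hsq : ∀ n, (sq (n + 1)).1 ⊆ (sq n).1 := fun n =>
    (step n (sq n).1 (sq n).2).choose_spec.1
  have hsq' : ∀ n, qrate B (N (sq (n + 1)).1) ≤ ρ + δ n := fun n =>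
    (step n (sq n).1 (sq n).2).choose_spec.2.2
  have hNmono : Monotone (fun n => N (sq n).1) :=
    monotone_nat_of_le_succ (fun n => hanti _ _ (hsq n))
  have hnorm : (⨆ n, N (sq n).1).Normal := by
    constructor
    intro x hx g
    obtain ⟨n, hn⟩ := (Subgroup.mem_iSup_of_directed hNmono.directed_le).1 hx
    exact (Subgroup.mem_iSup_of_directed hNmono.directed_le).2
      ⟨n, (inferInstance : (N (sq n).1).Normal).conj_mem x hn g⟩
  refine ⟨⨆ n, N (sq n).1, hnorm, le_antisymm ?_ ?_⟩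
  · have hlim : Tendsto (fun n => ρ + δ n) atTop (𝓝 (ρ + 0)) := hδ.const_add ρ
    rw [add_zero] at hlim
    refine ge_of_tendsto' hlim (fun n => ?_)
    refine le_trans ?_ (hsq' n)
    exact qrate_mono hB h1 _ _ (le_iSup (fun n => N (sq n).1) (n + 1))
  · exact le_qrate_iSup hB h1 (fun n => N (sq n).1) hNmono ρ (fun n => (sq n).2)

/-- From an interval of growth exponents to the frozen statement. -/
theorem growth_of_qrate (hB : B.Finite) (h1 : (1 : F) ∈ B) (hinv : B⁻¹ = B)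
    (hcl : Subgroup.closure B = ⊤) (M : Subgroup F) [M.Normal] (j : ℕ) (hj : 0 < j) :
    ∃ S : Set (F ⧸ M), S.Finite ∧ Subgroup.closure S = ⊤ ∧
      Tendsto (fun k : ℕ => ((((insert (1 : F ⧸ M) (S ∪ S⁻¹) : Set (F ⧸ M)) ^ k).ncard : ℝ) ^
        ((1 : ℝ) / (k : ℝ)))) atTop (𝓝 (Real.exp (j * qrate B M))) := by
  set T : Set (F ⧸ M) := (QuotientGroup.mk' M) '' B with hT
  have hTfin : T.Finite := hB.image _
  have hT1 : (1 : F ⧸ M) ∈ T := ⟨1, h1, map_one _⟩
  have hTinv : T⁻¹ = T := by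
    rw [hT, ← Set.image_inv_eq_inv, ← Set.image_comp]
    have : (fun a => a⁻¹) ∘ (QuotientGroup.mk' M) = (QuotientGroup.mk' M) ∘ (fun a => a⁻¹) := by
      funext x; simp
    rw [this, Set.image_comp, Set.image_inv_eq_inv, hinv]
  refine ⟨T ^ j, finite_pow hTfin j, ?_, ?_⟩
  · have hle : T ⊆ T ^ j := by
      have := Set.pow_subset_pow (s := T) (t := T) (m := 1) (n := j) subset_rfl hT1 hj
      simpa using this
    rw [eq_top_iff]
    refine le_trans ?_ (Subgroup.closure_mono hle)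
    rw [hT, ← MonoidHom.map_closure, hcl]
    intro x _
    obtain ⟨y, rfl⟩ := QuotientGroup.mk'_surjective M x
    exact ⟨y, trivial, rfl⟩
  · have hset : (insert (1 : F ⧸ M) (T ^ j ∪ (T ^ j)⁻¹) : Set (F ⧸ M)) = T ^ j := by
      have hi : (T ^ j)⁻¹ = T ^ j := by rw [← inv_pow, hTinv]
      rw [hi, Set.union_self, Set.insert_eq_of_mem (one_mem_pow hT1 j)]
    rw [hset]
    have hspec : IsRate T (qrate B M) := rate_spec hB h1 (QuotientGroup.mk' M)
    unfold IsRate at hspec
    have hmul : Tendsto (fun k : ℕ => j * k) atTop atTop :=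
      tendsto_id.const_mul_atTop' hj
    have h2 := (hspec.comp hmul).const_mul (j : ℝ)
    have h3 := (Real.continuous_exp.tendsto _).comp h2
    refine h3.congr' ?_
    filter_upwards [eventually_gt_atTop 0] with k hk
    have hk' : (0 : ℝ) < k := by exact_mod_cast hk
    have hj' : (0 : ℝ) < j := by exact_mod_cast hj
    have hpos : (0 : ℝ) < ((T ^ (j * k)).ncard : ℝ) := by
      exact_mod_cast ncard_pow_pos hTfin hT1 (j * k)
    simp only [Function.comp]
    rw [← pow_mul, Real.rpow_def_of_pos hpos]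
    unfold lg
    congr 1
    push_cast
    field_simp

end Pool.Agent.Work.MP_e05d43_al
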