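import Pool.Agent.Work.MP_e05d43_al.Count
import Pool.Agent.Work.MP_e05d43_al.Limit

set_option autoImplicit false
open scoped Pointwise
open Filter Topology

namespace Pool.Agent.Work.MP_e05d43_al

/-- index type of the generators -/
abbrev J : Type := Bool ⊕ Bool × Bool

def gen : J → PG
  | .inl false => gA
  | .inl true => gX
  | .inr (p, q) => gV p q

theorem gA_sq : gA * gA = 1 := by
  refine PG_ext ?_
  intro ξ η t
  show gA ξ (gA ξ (η, t)) = _
  simp [flp_flp]

theorem gV_sq (p q : Bool) : gV p q * gV p q = 1 := by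
  refine PG_ext ?_
  intro ξ η t
  show gV p q ξ (gV p q ξ (η, t)) = _
  simp [act_invol]

theorem gX_sq : gX * gX = 1 := by
  refine PG_ext ?_
  intro ξ η t
  show gX ξ (gX ξ (η, t)) = _
  simp [gX]

theorem gen_sq (j : J) : gen j * gen j = 1 := by
  rcases j with (_ | _) | ⟨p, q⟩
  · exact gA_sq
  · exact gX_sq
  · exact gV_sq p q

theorem gen_inv (j : J) : (gen j)⁻¹ = gen j := inv_eq_of_mul_eq_one_left (gen_sq j)

def ev : FreeGroup J →* PG := FreeGroup.lift gen

theorem ev_of (j : J) : ev (FreeGroup.of j) = gen j := by simp [ev]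

/-- the generating set -/
def BB : Set (FreeGroup J) := {1} ∪ (Set.range FreeGroup.of ∪ (Set.range FreeGroup.of)⁻¹)

theorem BB_finite : BB.Finite :=
  (Set.finite_singleton _).union ((Set.finite_range _).union (Set.finite_range _).inv)

theorem BB_one : (1 : FreeGroup J) ∈ BB := Or.inl rfl

theorem BB_inv : BB⁻¹ = BB := by
  unfold BB
  rw [Set.union_inv, Set.union_inv, inv_inv, Set.inv_singleton, inv_one]
  rw [Set.union_comm (Set.range FreeGroup.of)⁻¹]

theorem BB_closure : Subgroup.closure BB = ⊤ := by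
  rw [eq_top_iff, ← FreeGroup.closure_range_of J]
  exact Subgroup.closure_mono (fun x hx => Or.inr (Or.inl hx))

theorem gen_mul_hasWt (j : J) {g : PG} {W : ℕ} (h : HasWt g W) : HasWt (gen j * g) (W + 3) := by
  rcases j with (_ | _) | ⟨p, q⟩
  · exact h.gA_mul
  · exact h.gX_mul.mono (by omega)
  · exact h.gV_mul p q

theorem ev_hasWt (k : ℕ) : ∀ w ∈ BB ^ k, HasWt (ev w) (3 * k) := by
  induction k with
  | zero =>
    intro w hw
    rw [pow_zero, Set.mem_one] at hw
    rw [hw, map_one]
    exact HasWt.one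
  | succ k ih =>
    intro w hw
    rw [pow_succ'] at hw
    obtain ⟨b, hb, u, hu, rfl⟩ := hw
    have h := ih u hu
    simp only [map_mul]
    rcases hb with hb | ⟨j, rfl⟩ | ⟨j, hj⟩
    · rw [Set.mem_singleton_iff] at hb
      rw [hb, map_one, one_mul]
      exact h.mono (by omega)
    · rw [ev_of]
      exact (gen_mul_hasWt j h).mono (by omega)
    · have : b = (FreeGroup.of j)⁻¹ := by rw [hj, inv_inv]
      rw [this, map_inv, ev_of, gen_inv]
      exact (gen_mul_hasWt j h).mono (by omega)

/-- restriction to a set of first coordinates -/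
def resHom (V : Set ℕ) : FreeGroup J →* (V → Equiv.Perm (ℕ × Bool)) where
  toFun w := fun ξ => ev w ξ
  map_one' := by funext ξ; simp
  map_mul' w u := by funext ξ; simp

def NN (V : Set ℕ) : Subgroup (FreeGroup J) := (resHom V).ker

instance (V : Set ℕ) : (NN V).Normal := by unfold NN; infer_instance

theorem mem_NN {V : Set ℕ} {w : FreeGroup J} : w ∈ NN V ↔ ∀ ξ ∈ V, ev w ξ = 1 := by
  unfold NN
  rw [MonoidHom.mem_ker]
  constructor
  · intro h ξ hξ
    exact congrFun h ⟨ξ, hξ⟩
  · intro h
    funext ξ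
    exact h ξ.1 ξ.2

theorem inv_mul_mem_NN {V : Set ℕ} {w u : FreeGroup J} :
    w⁻¹ * u ∈ NN V ↔ ∀ ξ ∈ V, ev w ξ = ev u ξ := by
  rw [mem_NN]
  refine forall_congr' fun ξ => forall_congr' fun _ => ?_
  rw [map_mul, map_inv, Pi.mul_apply, Pi.inv_apply, inv_mul_eq_one]

theorem NN_anti (V W : Set ℕ) (h : V ⊆ W) : NN W ≤ NN V := by
  intro w hw
  rw [mem_NN] at hw ⊢
  exact fun ξ hξ => hw ξ (h hξ)

theorem NN_union (V W : Set ℕ) : NN V ⊓ NN W ≤ NN (V ∪ W) := by
  rintro w ⟨h1, h2⟩
  have h1' := mem_NN.1 h1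
  have h2' := mem_NN.1 h2
  rw [mem_NN]
  rintro ξ (hξ | hξ)
  · exact h1' ξ hξ
  · exact h2' ξ hξ

theorem NN_empty : NN ∅ = ⊤ := by
  rw [eq_top_iff]
  intro w _
  rw [mem_NN]
  intro ξ hξ
  exact absurd hξ (Set.notMem_empty ξ)

/-- small growth of the pieces -/
theorem qrate_class (n r : ℕ) : qrate BB (NN {m | m % 2 ^ n = r}) ≤ 3 * κ * (5 / 6) ^ n := by
  refine le_of_forall_pos_le_add ?_
  intro ε' hε'
  set ε := ε' / 3 with hε
  have hε0 : 0 < ε := by positivity
  obtain ⟨C, hC, hA⟩ := AA_bound n ε hε0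
  have hlim : Tendsto (fun k : ℕ => Real.log C / (k : ℝ) + 3 * (κ * (5 / 6) ^ n + ε)) atTop
      (𝓝 (0 + 3 * (κ * (5 / 6) ^ n + ε))) :=
    (tendsto_const_div_atTop_nhds_zero_nat _).add tendsto_const_nhds
  have hgoal : 3 * κ * (5 / 6) ^ n + ε' = 0 + 3 * (κ * (5 / 6) ^ n + ε) := by
    rw [hε]; ring
  rw [hgoal]
  refine ge_of_tendsto hlim ?_
  filter_upwards [eventually_gt_atTop 0] with k hk
  have hk' : (0 : ℝ) < k := by exact_mod_cast hk
  have h1 := rate_mul_le BB_finite BB_one (QuotientGroup.mk' (NN {m | m % 2 ^ n = r})) k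
  have h2 : lg ((QuotientGroup.mk' (NN {m | m % 2 ^ n = r})) '' BB) k ≤
      Real.log C + (κ * (5 / 6) ^ n + ε) * (3 * k) := by
    unfold lg
    rw [image_pow_eq]
    have h3 : ((QuotientGroup.mk' (NN {m | m % 2 ^ n = r})) '' (BB ^ k)).ncard ≤
        (AA n r (3 * k)).ncard := by
      refine (ncard_image_le_of_factor (finite_pow BB_finite k) (fun w => res n r (ev w)) _ ?_).trans
        (Set.ncard_le_ncard ?_ (hA r (3 * k)).1)
      · intro w _ u _ hwu
        refine QuotientGroup.eq.2 (inv_mul_mem_NN.2 ?_)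
        intro ξ hξ
        refine Equiv.ext fun x => ?_
        have h4 := congrFun (congrFun hwu (ξ / 2 ^ n)) x
        simp only [res] at h4
        have h5 : 2 ^ n * (ξ / 2 ^ n) + r = ξ := by
          have h6 : ξ % 2 ^ n = r := hξ
          rw [← h6]
          exact Nat.div_add_mod ξ (2 ^ n)
        rwa [h5] at h4
      · rintro _ ⟨w, hw, rfl⟩
        exact ⟨ev w, ev_hasWt k w hw, rfl⟩
    have hpos : (0 : ℝ) < (((QuotientGroup.mk' (NN {m | m % 2 ^ n = r})) '' (BB ^ k)).ncard : ℝ) := by
      have : 0 < ((QuotientGroup.mk' (NN {m | m % 2 ^ n = r})) '' (BB ^ k)).ncard :=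
        (Set.ncard_pos ((finite_pow BB_finite k).image _)).2 ⟨1, 1, one_mem_pow BB_one k, map_one _⟩
      exact_mod_cast this
    have h4 : (((QuotientGroup.mk' (NN {m | m % 2 ^ n = r})) '' (BB ^ k)).ncard : ℝ) ≤
        C * Real.exp ((κ * (5 / 6) ^ n + ε) * (3 * k)) := by
      have h5 := (hA r (3 * k)).2
      push_cast at h5
      refine le_trans ?_ h5
      exact_mod_cast h3
    refine (Real.log_le_log hpos h4).trans ?_
    rw [Real.log_mul hC.ne' (Real.exp_pos _).ne', Real.log_exp]
  have h3 : qrate BB (NN {m | m % 2 ^ n = r}) * k ≤ Real.log C + (κ * (5 / 6) ^ n + ε) * (3 * k) :=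
    h1.trans h2
  have h4 : Real.log C / (k : ℝ) + 3 * (κ * (5 / 6) ^ n + ε) =
      (Real.log C + (κ * (5 / 6) ^ n + ε) * (3 * k)) / k := by
    field_simp
  rw [h4, le_div_iff₀ hk']
  exact h3

/-- Gray code -/
def gray (m : ℕ) : ℕ :=
  if h : m = 0 then 0 else e (decide ((m + m / 2) % 2 = 1)) (gray (m / 2))
termination_by m
decreasing_by omega

theorem gray_eq (m : ℕ) : gray m = e (decide ((m + m / 2) % 2 = 1)) (gray (m / 2)) := by
  rcases Nat.eq_zero_or_pos m with rfl | hm
  · simp [gray, e]
  · rw [gray, dif_neg (by omega)]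

theorem gray_inj (m : ℕ) : ∀ m', gray m = gray m' → m = m' := by
  induction m using Nat.strong_induction_on with
  | _ m ih =>
    intro m' h
    rcases Nat.eq_zero_or_pos m with rfl | hm
    · -- gray 0 = gray m'
      have key : ∀ k, gray 0 = gray k → k = 0 := by
        intro k
        induction k using Nat.strong_induction_on with
        | _ k ihk =>
          intro hk
          by_contra hne
          rw [gray_eq 0, gray_eq k, e_inj] at hk
          have h2 := ihk (k / 2) (by omega) (by simpa using hk.2)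
          have h1 := hk.1
          rw [h2] at h1
          have : k = 1 := by omega
          subst this
          simp at h1
      exact (key m' h).symm
    · rw [gray_eq m, gray_eq m', e_inj] at h
      have h2 := ih (m / 2) (by omega) (m' / 2) h.2
      have h1 := h.1
      rw [decide_eq_decide] at h1
      omega

theorem gray_even (j : ℕ) : flp (gray (2 * j)) = gray (2 * j + 1) := by
  rw [gray_eq (2 * j), gray_eq (2 * j + 1), flp_e, e_inj]
  have h1 : 2 * j / 2 = j := by omega
  have h2 : (2 * j + 1) / 2 = j := by omega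
  rw [h1, h2]
  refine ⟨?_, rfl⟩
  rcases Nat.mod_two_eq_zero_or_one j with h | h
  · have : (2 * j + j) % 2 = 0 := by omega
    have h' : (2 * j + 1 + j) % 2 = 1 := by omega
    simp [this, h']
  · have : (2 * j + j) % 2 = 1 := by omega
    have h' : (2 * j + 1 + j) % 2 = 0 := by omega
    simp [this, h']

theorem gray_odd (j : ℕ) : ∃ p q, act p q (gray (2 * j + 1)) = gray (2 * j + 2) := by
  induction j using Nat.strong_induction_on with
  | _ j ih =>
    have h1 : (2 * j + 1) / 2 = j := by omega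
    have h2 : (2 * j + 2) / 2 = j + 1 := by omega
    rcases Nat.mod_two_eq_zero_or_one j with h | h
    · refine ⟨true, false, ?_⟩
      rw [gray_eq (2 * j + 1), gray_eq (2 * j + 2), h1, h2]
      have h3 : decide ((2 * j + 1 + j) % 2 = 1) = true := by
        rw [decide_eq_true_iff]; omega
      have h4 : decide ((2 * j + 2 + (j + 1)) % 2 = 1) = true := by
        rw [decide_eq_true_iff]; omega
      rw [h3, h4, act_true_e, e_inj]
      refine ⟨rfl, ?_⟩
      have h5 : j = 2 * (j / 2) := by omega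
      have h6 := gray_even (j / 2)
      rw [← h5] at h6
      simpa [aif] using h6
    · obtain ⟨p, q, hpq⟩ := ih (j / 2) (by omega)
      refine ⟨xor p q, p, ?_⟩
      rw [gray_eq (2 * j + 1), gray_eq (2 * j + 2), h1, h2]
      have h3 : decide ((2 * j + 1 + j) % 2 = 1) = false := by
        rw [decide_eq_false_iff_not]; omega
      have h4 : decide ((2 * j + 2 + (j + 1)) % 2 = 1) = false := by
        rw [decide_eq_false_iff_not]; omega
      rw [h3, h4, act_false_e, e_inj]
      refine ⟨rfl, ?_⟩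
      have h5 : 2 * (j / 2) + 1 = j := by omega
      have h6 : 2 * (j / 2) + 2 = j + 1 := by omega
      rw [h5, h6] at hpq
      rw [← hpq]
      congr 1
      cases p <;> cases q <;> rfl

theorem exists_letter (m : ℕ) : ∃ j : J, ∀ (ξ : ℕ) (t : Bool),
    gen j ξ (gray (m + 1), t) = (gray m, t) := by
  rcases Nat.even_or_odd' m with ⟨i, hi | hi⟩
  · refine ⟨.inl false, fun ξ t => ?_⟩
    show gA ξ (gray (m + 1), t) = _
    rw [gA_apply, hi, ← gray_even, flp_flp]
  · obtain ⟨p, q, hpq⟩ := gray_odd i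
    refine ⟨.inr (p, q), fun ξ t => ?_⟩
    show gV p q ξ (gray (m + 1), t) = _
    rw [gV_apply, hi, ← hpq, act_invol]

noncomputable def letter (m : ℕ) : J := (exists_letter m).choose

theorem letter_spec (m ξ : ℕ) (t : Bool) : gen (letter m) ξ (gray (m + 1), t) = (gray m, t) :=
  (exists_letter m).choose_spec ξ t

noncomputable def wd (ε : ℕ → Bool) : ℕ → FreeGroup J
  | 0 => 1
  | k + 1 => wd ε k * (FreeGroup.of (letter k) * (if ε k then FreeGroup.of (.inl true) else 1))

theorem wd_mem (ε : ℕ → Bool) (k : ℕ) : wd ε k ∈ BB ^ (2 * k) := by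
  induction k with
  | zero => simp [wd]
  | succ k ih =>
    have : 2 * (k + 1) = 2 * k + (1 + 1) := by ring
    rw [this, pow_add, pow_add, pow_one]
    refine Set.mul_mem_mul ih (Set.mul_mem_mul (Or.inr (Or.inl ⟨_, rfl⟩)) ?_)
    split_ifs
    · exact Or.inr (Or.inl ⟨_, rfl⟩)
    · exact Or.inl rfl

theorem wd_apply (ε : ℕ → Bool) (i k : ℕ) : ∀ t, ev (wd ε k) (gray (i + 1)) (gray k, t) =
    (gray 0, xor t (decide (i < k) && ε i)) := by
  induction k with
  | zero => intro t; simp [wd]
  | succ k ih =>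
    intro t
    have h1 : ev (wd ε (k + 1)) (gray (i + 1)) (gray (k + 1), t) =
        ev (wd ε k) (gray (i + 1)) (gen (letter k) (gray (i + 1))
          (ev (if ε k then FreeGroup.of (.inl true) else 1) (gray (i + 1)) (gray (k + 1), t))) := by
      simp only [wd, map_mul, ev_of]
      rfl
    rw [h1]
    have h2 : ev (if ε k then FreeGroup.of (.inl true) else 1) (gray (i + 1)) (gray (k + 1), t) =
        (gray (k + 1), xor t (decide (i = k) && ε k)) := by
      cases hk : ε k
      · simp
      · simp only [if_true, ev_of]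
        show gX (gray (i + 1)) (gray (k + 1), t) = _
        unfold gX
        rw [lamp_apply]
        congr 2
        rw [Bool.and_true, decide_eq_decide]
        constructor
        · intro h
          have := gray_inj _ _ h
          omega
        · intro h
          rw [h]
    rw [h2, letter_spec, ih]
    congr 1
    rcases Nat.lt_trichotomy i k with h | h | h
    · simp [h, Nat.lt_succ_of_lt h, h.ne]
    · simp [h]
    · have h3 : ¬ i < k := by omega
      have h4 : ¬ i = k := by omega
      have h5 : ¬ i < k + 1 := by omega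
      simp [h3, h4, h5]

theorem qrate_univ : Real.log 2 / 2 ≤ qrate BB (NN Set.univ) := by
  have hspec : IsRate _ _ := rate_spec BB_finite BB_one (QuotientGroup.mk' (NN Set.univ))
  unfold IsRate at hspec
  have hmul : Tendsto (fun k : ℕ => 2 * k) atTop atTop := tendsto_id.const_mul_atTop' (by norm_num)
  refine ge_of_tendsto (hspec.comp hmul) ?_
  filter_upwards [eventually_gt_atTop 0] with k hk
  have hk' : (0 : ℝ) < k := by exact_mod_cast hk
  simp only [Function.comp]
  have h1 : (2 : ℕ) ^ k ≤ ((QuotientGroup.mk' (NN Set.univ)) '' (BB ^ (2 * k))).ncard := by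
    have h2 : (Set.univ : Set (Fin k → Bool)).ncard = 2 ^ k := by
      rw [Set.ncard_univ, Nat.card_eq_fintype_card]
      simp
    rw [← h2]
    refine Set.ncard_le_ncard_of_injOn
      (fun f => QuotientGroup.mk' (NN Set.univ) (wd (fun i => if h : i < k then f ⟨i, h⟩ else false) k))
      (fun f _ => ⟨_, wd_mem _ k, rfl⟩) ?_ ((finite_pow BB_finite (2 * k)).image _)
    intro f _ f' _ hff
    have h3 := inv_mul_mem_NN.1 (QuotientGroup.eq.1 hff)
    funext i
    have h4 := h3 (gray (i + 1)) (Set.mem_univ _)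
    have h5 := wd_apply (fun i => if h : i < k then f ⟨i, h⟩ else false) i k false
    have h6 := wd_apply (fun i => if h : i < k then f' ⟨i, h⟩ else false) i k false
    rw [h4, h6] at h5
    simpa using h5.symm
  have h2 : (k : ℝ) * Real.log 2 ≤ lg ((QuotientGroup.mk' (NN Set.univ)) '' BB) (2 * k) := by
    unfold lg
    rw [image_pow_eq, ← Real.log_pow]
    refine Real.log_le_log (by positivity) ?_
    exact_mod_cast h1
  rw [le_div_iff₀ (by positivity)]
  push_cast
  calc Real.log 2 / 2 * (2 * (k : ℝ)) = k * Real.log 2 := by ring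
    _ ≤ _ := h2

/-- Every real number `≥ 1` is an exponential growth rate. -/
theorem main (r : ℝ) (hr : 1 ≤ r) :
    ∃ (Γ : Type) (_ : Group Γ) (S : Set Γ), S.Finite ∧ Subgroup.closure S = ⊤ ∧
      Tendsto (fun k : ℕ => ((((insert (1 : Γ) (S ∪ S⁻¹) : Set Γ) ^ k).ncard : ℝ) ^
        ((1 : ℝ) / (k : ℝ)))) atTop (𝓝 r) := by
  rcases hr.eq_or_lt with rfl | hr1
  · refine ⟨Unit, inferInstance, ∅, Set.finite_empty, ?_, ?_⟩
    · exact Subsingleton.elim _ _
    · have : (fun k : ℕ => ((((insert (1 : Unit) (∅ ∪ (∅ : Set Unit)⁻¹) : Set Unit) ^ k).ncard : ℝ) ^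
          ((1 : ℝ) / (k : ℝ)))) = fun _ => 1 := by
        funext k
        have : ((insert (1 : Unit) (∅ ∪ (∅ : Set Unit)⁻¹) : Set Unit) ^ k).ncard = 1 := by
          have hle : ((insert (1 : Unit) (∅ ∪ (∅ : Set Unit)⁻¹) : Set Unit) ^ k).ncard ≤ 1 :=
            Set.ncard_le_one_of_subsingleton _
          have hpos := ncard_pow_pos (T := (insert (1 : Unit) (∅ ∪ (∅ : Set Unit)⁻¹) : Set Unit))
            (Set.toFinite _) (Set.mem_insert _ _) k
          omega
        rw [this]
        simp
      rw [this]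
      exact tendsto_const_nhds
  · have hlog : 0 < Real.log r := Real.log_pos hr1
    have hlog2 : 0 < Real.log 2 := Real.log_pos (by norm_num)
    obtain ⟨j, hj⟩ := exists_nat_ge (2 * Real.log r / Real.log 2)
    have hj0 : (0 : ℝ) < j := lt_of_lt_of_le (by positivity) hj
    have hjn : 0 < j := by exact_mod_cast hj0
    have hρ : 0 < Real.log r / j := by positivity
    have hρ' : Real.log r / j ≤ qrate BB (NN Set.univ) := by
      refine le_trans ?_ qrate_univ
      rw [div_le_div_iff₀ hj0 (by norm_num)]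
      rw [div_le_iff₀ hlog2] at hj
      linarith
    have hδ : Tendsto (fun n : ℕ => 3 * κ * (5 / 6 : ℝ) ^ n) atTop (𝓝 0) := by
      have := (tendsto_pow_atTop_nhds_zero_of_lt_one (r := (5 / 6 : ℝ)) (by norm_num)
        (by norm_num)).const_mul (3 * κ)
      simpa using this
    obtain ⟨M, hM, hMρ⟩ := exists_qrate_eq BB_finite BB_one NN NN_anti NN_union NN_empty
      (fun n => 3 * κ * (5 / 6) ^ n) hδ qrate_class (Real.log r / j) hρ hρ'
    obtain ⟨S, hS, hS', hlim⟩ := growth_of_qrate BB_finite BB_one BB_inv BB_closure M j hjn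
    refine ⟨FreeGroup J ⧸ M, inferInstance, S, hS, hS', ?_⟩
    have : Real.exp (j * qrate BB M) = r := by
      rw [hMρ, mul_div_cancel₀ _ hj0.ne', Real.exp_log (by linarith)]
    rw [this] at hlim
    exact hlim

end Pool.Agent.Work.MP_e05d43_al
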