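import Pool.Agent.Work.MP_e05d43_al.Grig

set_option autoImplicit false
open scoped Pointwise
open Filter Topology

namespace Pool.Agent.Work.MP_e05d43_al

/-- all phases -/
def phases : Set PG := Set.range (fun x : ((I → Bool) → Bool) × Bool × Bool => ph x.1 x.2.1 x.2.2)

theorem phases_finite : phases.Finite := Set.finite_range _

theorem phases_pos : 0 < phases.ncard :=
  (Set.ncard_pos phases_finite).2 ⟨ph (fun _ => false) false false, ⟨(fun _ => false, false, false), rfl⟩⟩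

theorem hasWt_subset (W : ℕ) :
    {g : PG | HasWt g W} ⊆ phases ∪ phases * ({gA} * {g : PG | HasWt g (W - 3)}) := by
  intro g hg
  cases hg with
  | base F p q _ h => exact Or.inl ⟨(F, p, q), rfl⟩
  | step F p q g W₀ _ hg h =>
    right
    exact ⟨ph F p q, ⟨(F, p, q), rfl⟩, gA * g, ⟨gA, rfl, g, hg.mono (by omega), rfl⟩, rfl⟩

theorem hasWt_subset_small (W : ℕ) (hW : W < 3) : {g : PG | HasWt g W} ⊆ phases := by
  intro g hg
  cases hg with
  | base F p q _ h => exact ⟨(F, p, q), rfl⟩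
  | step F p q g W₀ _ hg h => omega

theorem ncard_mul_le {G : Type*} [Group G] {s t : Set G} : (s * t).ncard ≤ s.ncard * t.ncard := by
  simpa [Set.ncard_def, Nat.card_coe_set_eq] using (Set.natCard_mul_le (s := s) (t := t))

theorem hasWt_count (W : ℕ) : {g : PG | HasWt g W}.Finite ∧
    {g : PG | HasWt g W}.ncard ≤ (2 * phases.ncard) ^ (W + 1) := by
  have hM := phases_pos
  set M := phases.ncard with hMdef
  induction W using Nat.strong_induction_on with
  | _ W ih =>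
    rcases Nat.lt_or_ge W 3 with hW | hW
    · refine ⟨phases_finite.subset (hasWt_subset_small W hW), ?_⟩
      refine (Set.ncard_le_ncard (hasWt_subset_small W hW) phases_finite).trans ?_
      rw [← hMdef]
      calc M ≤ 2 * M := by omega
        _ = (2 * M) ^ 1 := by ring
        _ ≤ (2 * M) ^ (W + 1) := Nat.pow_le_pow_right (by omega) (by omega)
    · obtain ⟨hf, hc⟩ := ih (W - 3) (by omega)
      have hfin : (phases ∪ phases * ({gA} * {g : PG | HasWt g (W - 3)})).Finite :=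
        phases_finite.union (phases_finite.mul ((Set.finite_singleton _).mul hf))
      refine ⟨hfin.subset (hasWt_subset W), ?_⟩
      refine (Set.ncard_le_ncard (hasWt_subset W) hfin).trans ?_
      refine (Set.ncard_union_le _ _).trans ?_
      have h1 : (phases * ({gA} * {g : PG | HasWt g (W - 3)})).ncard ≤ M * (2 * M) ^ (W - 3 + 1) := by
        refine ncard_mul_le.trans ?_
        rw [← hMdef]
        refine Nat.mul_le_mul_left _ ?_
        refine ncard_mul_le.trans ?_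
        simpa using hc
      rw [← hMdef]
      have h2 : 1 ≤ (2 * M) ^ (W - 3 + 1) := Nat.one_le_pow _ _ (by omega)
      calc M + (phases * ({gA} * {g : PG | HasWt g (W - 3)})).ncard
          ≤ M * (2 * M) ^ (W - 3 + 1) + M * (2 * M) ^ (W - 3 + 1) :=
            Nat.add_le_add (Nat.le_mul_of_pos_right _ h2) h1
        _ = (2 * M) ^ (W - 3 + 1 + 1) := by rw [pow_succ (2 * M) (W - 3 + 1)]; ring
        _ ≤ (2 * M) ^ (W + 1) := Nat.pow_le_pow_right (by omega) (by omega)

/-- restriction of `g` to the residue class of `r` modulo `2 ^ n` -/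
def res (n r : ℕ) (g : PG) : ℕ → ℕ × Bool → ℕ × Bool := fun ξ x => g (2 ^ n * ξ + r) x

def AA (n r W : ℕ) : Set (ℕ → ℕ × Bool → ℕ × Bool) := res n r '' {g : PG | HasWt g W}

/-- recombination of sections -/
def comb (σ : Bool) (f : Bool → ℕ → ℕ × Bool → ℕ × Bool) : ℕ → ℕ × Bool → ℕ × Bool :=
  fun ξ x => (e (xor (decide (x.1 % 2 = 1)) σ) (f (decide (x.1 % 2 = 1)) ξ (x.1 / 2, x.2)).1,
    (f (decide (x.1 % 2 = 1)) ξ (x.1 / 2, x.2)).2)

theorem AA_subset (n r W : ℕ) : AA (n + 1) r W ⊆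
    ⋃ x ∈ (Finset.univ ×ˢ (Finset.range (W + 4) ×ˢ Finset.range (W + 4))).filter
        (fun x : Bool × ℕ × ℕ => 6 * (x.2.1 + x.2.2) ≤ 5 * (W + 3)),
      (fun y : (ℕ → ℕ × Bool → ℕ × Bool) × (ℕ → ℕ × Bool → ℕ × Bool) =>
        comb x.1 (fun v => if v then y.2 else y.1)) ''
          (AA n (r / 2) x.2.1 ×ˢ AA n (r / 2) x.2.2) := by
  rintro _ ⟨g, hg, rfl⟩
  obtain ⟨s, σ, w, hs, hw, hS⟩ := HasWt.sections hg (decide (r % 2 = 1))
  simp only [Set.mem_iUnion]
  refine ⟨(σ, w false, w true), ?_, ?_⟩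
  · simp only [Finset.mem_filter, Finset.mem_product, Finset.mem_univ, Finset.mem_range, true_and]
    refine ⟨⟨?_, ?_⟩, hw⟩ <;> omega
  · refine ⟨(res n (r / 2) (s false), res n (r / 2) (s true)),
      ⟨⟨s false, hs false, rfl⟩, ⟨s true, hs true, rfl⟩⟩, ?_⟩
    funext ξ x
    obtain ⟨m, t⟩ := x
    have hξ : 2 ^ (n + 1) * ξ + r = e (decide (r % 2 = 1)) (2 ^ n * ξ + r / 2) := by
      have h1 := e_surj r
      unfold e at h1 ⊢
      rw [pow_succ]
      nlinarith
    have hm := e_surj m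
    have h2 := hS (2 ^ n * ξ + r / 2) (decide (m % 2 = 1)) (m / 2) t
    rw [hm, ← hξ] at h2
    simp only [res, comb]
    rw [h2]
    cases (decide (m % 2 = 1)) <;> rfl

/-- the exponent of the trivial bound -/
noncomputable def κ : ℝ := Real.log (2 * phases.ncard : ℕ)

theorem κ_nonneg : 0 ≤ κ := Real.log_natCast_nonneg _

theorem AA_zero (r W : ℕ) : (AA 0 r W).Finite ∧
    ((AA 0 r W).ncard : ℝ) ≤ Real.exp κ * Real.exp (κ * W) := by
  obtain ⟨hf, hc⟩ := hasWt_count W
  refine ⟨hf.image _, ?_⟩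
  have h1 : (AA 0 r W).ncard ≤ (2 * phases.ncard) ^ (W + 1) := (Set.ncard_image_le hf).trans hc
  have hpos : (0 : ℝ) < ((2 * phases.ncard : ℕ) : ℝ) := by
    have := phases_pos
    exact_mod_cast (by omega : 0 < 2 * phases.ncard)
  calc ((AA 0 r W).ncard : ℝ) ≤ (((2 * phases.ncard) ^ (W + 1) : ℕ) : ℝ) := by exact_mod_cast h1
    _ = (Real.exp κ) ^ (W + 1) := by
      unfold κ
      rw [Real.exp_log hpos]
      push_cast
      ring
    _ = Real.exp κ * Real.exp (κ * W) := by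
      rw [← Real.exp_nat_mul, ← Real.exp_add]
      congr 1
      push_cast
      ring

theorem nat_le_exp (ε : ℝ) (hε : 0 < ε) (W : ℕ) :
    ((W : ℝ) + 4) ≤ (4 * (1 + 1 / ε)) * Real.exp (ε * W) := by
  have h1 : ε * W + 1 ≤ Real.exp (ε * W) := Real.add_one_le_exp _
  have h2 : (W : ℝ) ≤ (1 / ε) * Real.exp (ε * W) := by
    have : ε * W ≤ Real.exp (ε * W) := by linarith
    calc (W : ℝ) = (1 / ε) * (ε * W) := by field_simp
      _ ≤ _ := by
        refine mul_le_mul_of_nonneg_left this (by positivity)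
  have hW : (0 : ℝ) ≤ (W : ℝ) := Nat.cast_nonneg W
  have h3 : 1 ≤ Real.exp (ε * W) := Real.one_le_exp (by positivity)
  have h4 : 0 ≤ (1 / ε) * Real.exp (ε * W) := by positivity
  nlinarith

theorem AA_bound (n : ℕ) : ∀ ε : ℝ, 0 < ε → ∃ C : ℝ, 0 < C ∧ ∀ r W : ℕ, (AA n r W).Finite ∧
    ((AA n r W).ncard : ℝ) ≤ C * Real.exp ((κ * (5 / 6) ^ n + ε) * W) := by
  induction n with
  | zero =>
    intro ε hε
    refine ⟨Real.exp κ, Real.exp_pos _, fun r W => ⟨(AA_zero r W).1, ?_⟩⟩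
    refine (AA_zero r W).2.trans ?_
    refine mul_le_mul_of_nonneg_left ?_ (Real.exp_pos _).le
    refine Real.exp_le_exp.2 ?_
    have hW : (0 : ℝ) ≤ (W : ℝ) := Nat.cast_nonneg W
    nlinarith
  | succ n ih =>
    intro ε hε
    obtain ⟨C, hC, hA⟩ := ih (ε / 2) (by positivity)
    set θ : ℝ := κ * (5 / 6) ^ n + ε / 2 with hθ
    have hθ0 : 0 ≤ θ := by
      have := κ_nonneg
      positivity
    set D : ℝ := 4 * (1 + 1 / (ε / 8)) with hD
    have hD0 : 0 < D := by positivity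
    refine ⟨2 * C ^ 2 * D ^ 2 * Real.exp (θ * 3), by positivity, fun r W => ?_⟩
    set T := (Finset.univ ×ˢ (Finset.range (W + 4) ×ˢ Finset.range (W + 4))).filter
        (fun x : Bool × ℕ × ℕ => 6 * (x.2.1 + x.2.2) ≤ 5 * (W + 3)) with hT
    set G : Bool × ℕ × ℕ → Set (ℕ → ℕ × Bool → ℕ × Bool) := fun x =>
      (fun y : (ℕ → ℕ × Bool → ℕ × Bool) × (ℕ → ℕ × Bool → ℕ × Bool) =>
        comb x.1 (fun v => if v then y.2 else y.1)) ''
          (AA n (r / 2) x.2.1 ×ˢ AA n (r / 2) x.2.2) with hG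
    have hGf : ∀ x, (G x).Finite := fun x =>
      (((hA (r / 2) x.2.1).1).prod ((hA (r / 2) x.2.2).1)).image _
    have hsub : AA (n + 1) r W ⊆ ⋃ x ∈ T, G x := AA_subset n r W
    have hfin : (⋃ x ∈ T, G x).Finite := T.finite_toSet.biUnion (fun x _ => hGf x)
    refine ⟨hfin.subset hsub, ?_⟩
    have h1 : (AA (n + 1) r W).ncard ≤ ∑ x ∈ T, (G x).ncard :=
      (Set.ncard_le_ncard hsub hfin).trans (Finset.set_ncard_biUnion_le T G)
    have h2 : ∀ x ∈ T, ((G x).ncard : ℝ) ≤ C ^ 2 * Real.exp (θ * 3) * Real.exp (θ * (5 / 6) * W) := by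
      intro x hx
      have hx' : 6 * (x.2.1 + x.2.2) ≤ 5 * (W + 3) := by
        rw [hT, Finset.mem_filter] at hx
        exact hx.2
      have h3 : (G x).ncard ≤ (AA n (r / 2) x.2.1).ncard * (AA n (r / 2) x.2.2).ncard := by
        rw [← Set.ncard_prod]
        exact Set.ncard_image_le (((hA (r / 2) x.2.1).1).prod ((hA (r / 2) x.2.2).1))
      have h4 : ((G x).ncard : ℝ) ≤
          (C * Real.exp (θ * x.2.1)) * (C * Real.exp (θ * x.2.2)) := by
        have h3' : ((G x).ncard : ℝ) ≤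
            ((AA n (r / 2) x.2.1).ncard : ℝ) * ((AA n (r / 2) x.2.2).ncard : ℝ) := by
          exact_mod_cast h3
        refine le_trans h3' ?_
        exact mul_le_mul (hA (r / 2) x.2.1).2 (hA (r / 2) x.2.2).2 (Nat.cast_nonneg _)
          (by positivity)
      refine h4.trans ?_
      have h5 : (C * Real.exp (θ * x.2.1)) * (C * Real.exp (θ * x.2.2)) =
          C ^ 2 * Real.exp (θ * (x.2.1 + x.2.2)) := by
        rw [mul_add, Real.exp_add]; ring
      rw [h5, mul_assoc, ← Real.exp_add]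
      refine mul_le_mul_of_nonneg_left ?_ (by positivity)
      refine Real.exp_le_exp.2 ?_
      have h6 : (6 : ℝ) * ((x.2.1 : ℝ) + x.2.2) ≤ 5 * (W + 3) := by exact_mod_cast hx'
      nlinarith
    have h3 : (T.card : ℝ) ≤ 2 * ((W : ℝ) + 4) ^ 2 := by
      have : T.card ≤ 2 * ((W + 4) * (W + 4)) := by
        refine (Finset.card_filter_le _ _).trans ?_
        simp [Finset.card_product]
      calc (T.card : ℝ) ≤ ((2 * ((W + 4) * (W + 4)) : ℕ) : ℝ) := by exact_mod_cast this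
        _ = _ := by push_cast; ring
    have h4 : ((AA (n + 1) r W).ncard : ℝ) ≤
        (T.card : ℝ) * (C ^ 2 * Real.exp (θ * 3) * Real.exp (θ * (5 / 6) * W)) := by
      calc ((AA (n + 1) r W).ncard : ℝ) ≤ ((∑ x ∈ T, (G x).ncard : ℕ) : ℝ) := by exact_mod_cast h1
        _ = ∑ x ∈ T, ((G x).ncard : ℝ) := by push_cast; rfl
        _ ≤ ∑ x ∈ T, (C ^ 2 * Real.exp (θ * 3) * Real.exp (θ * (5 / 6) * W)) :=
          Finset.sum_le_sum h2
        _ = _ := by rw [Finset.sum_const, nsmul_eq_mul]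
    have h5 := nat_le_exp (ε / 8) (by positivity) W
    rw [← hD] at h5
    have h6 : ((W : ℝ) + 4) ^ 2 ≤ D ^ 2 * Real.exp (ε / 4 * W) := by
      calc ((W : ℝ) + 4) ^ 2 ≤ (D * Real.exp (ε / 8 * W)) ^ 2 :=
            pow_le_pow_left₀ (by positivity) h5 2
        _ = D ^ 2 * (Real.exp (ε / 8 * W) * Real.exp (ε / 8 * W)) := by ring
        _ = _ := by rw [← Real.exp_add]; congr 2; ring
    have hW0 : (0 : ℝ) ≤ (W : ℝ) := Nat.cast_nonneg W
    calc ((AA (n + 1) r W).ncard : ℝ)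
        ≤ (2 * ((W : ℝ) + 4) ^ 2) * (C ^ 2 * Real.exp (θ * 3) * Real.exp (θ * (5 / 6) * W)) :=
          h4.trans (mul_le_mul_of_nonneg_right h3 (by positivity))
      _ ≤ (2 * (D ^ 2 * Real.exp (ε / 4 * W))) *
          (C ^ 2 * Real.exp (θ * 3) * Real.exp (θ * (5 / 6) * W)) := by
          refine mul_le_mul_of_nonneg_right ?_ (by positivity)
          linarith
      _ = 2 * C ^ 2 * D ^ 2 * Real.exp (θ * 3) *
          (Real.exp (ε / 4 * W) * Real.exp (θ * (5 / 6) * W)) := by ring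
      _ ≤ 2 * C ^ 2 * D ^ 2 * Real.exp (θ * 3) * Real.exp ((κ * (5 / 6) ^ (n + 1) + ε) * W) := by
          refine mul_le_mul_of_nonneg_left ?_ (by positivity)
          rw [← Real.exp_add]
          refine Real.exp_le_exp.2 ?_
          rw [hθ, pow_succ]
          nlinarith

end Pool.Agent.Work.MP_e05d43_al
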