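import Mathlib

set_option autoImplicit false
open scoped Pointwise
open Filter Topology

namespace Pool.Agent.Work.MP_e05d43_al

/-- swap `2j` and `2j+1` -/
def flp (m : ℕ) : ℕ := if m % 2 = 0 then m + 1 else m - 1

/-- append a binary digit -/
def e (v : Bool) (η : ℕ) : ℕ := 2 * η + v.toNat

def aif (p : Bool) (m : ℕ) : ℕ := if p then flp m else m

/-- the directed generators of the first Grigorchuk group, acting on binary expansions -/
def act (p q : Bool) (m : ℕ) : ℕ :=
  if h : m = 0 then 0
  else if m % 2 = 0 then 2 * act q (xor p q) (m / 2) else 2 * aif p (m / 2) + 1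
termination_by m
decreasing_by omega

theorem e_inj {v w : Bool} {η θ : ℕ} : e v η = e w θ ↔ v = w ∧ η = θ := by
  unfold e
  cases v <;> cases w <;> simp <;> omega

theorem e_surj (m : ℕ) : e (decide (m % 2 = 1)) (m / 2) = m := by
  unfold e
  rcases Nat.mod_two_eq_zero_or_one m with h | h
  · simp [h]; omega
  · simp [h]; omega

theorem e_dec (v : Bool) (η : ℕ) : decide (e v η % 2 = 1) = v := by
  unfold e
  cases v <;> simp

theorem e_half (v : Bool) (η : ℕ) : e v η / 2 = η := by
  unfold e
  cases v <;> simp <;> omega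

theorem e_cases (P : ℕ → Prop) (h : ∀ v η, P (e v η)) (m : ℕ) : P m := by
  rw [← e_surj m]; exact h _ _

theorem flp_e (v : Bool) (η : ℕ) : flp (e v η) = e (!v) η := by
  unfold flp e
  cases v <;> simp <;> omega

theorem flp_flp (m : ℕ) : flp (flp m) = m := by
  refine e_cases (fun m => flp (flp m) = m) ?_ m
  intro v η
  simp [flp_e]

theorem aif_e (p v : Bool) (η : ℕ) : aif p (e v η) = e (xor v p) η := by
  unfold aif
  cases p <;> simp [flp_e]

theorem aif_aif (p p' : Bool) (m : ℕ) : aif p (aif p' m) = aif (xor p p') m := by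
  unfold aif
  cases p <;> cases p' <;> simp [flp_flp]

theorem act_false_e (p q : Bool) (η : ℕ) : act p q (e false η) = e false (act q (xor p q) η) := by
  rcases Nat.eq_zero_or_pos η with rfl | hη
  · simp [act, e]
  · rw [act]
    have h1 : e false η ≠ 0 := by unfold e; simp; omega
    have h2 : e false η % 2 = 0 := by unfold e; simp
    rw [dif_neg h1, if_pos h2, e_half]
    simp [e]

theorem act_true_e (p q : Bool) (η : ℕ) : act p q (e true η) = e true (aif p η) := by
  rw [act]
  have h1 : e true η ≠ 0 := by unfold e; simp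
  have h2 : ¬ e true η % 2 = 0 := by unfold e; simp
  rw [dif_neg h1, if_neg h2, e_half]
  simp [e]

theorem act_act (p q p' q' : Bool) (m : ℕ) :
    act p q (act p' q' m) = act (xor p p') (xor q q') m := by
  induction m using Nat.strong_induction_on generalizing p q p' q' with
  | _ m ih =>
    rcases Nat.eq_zero_or_pos m with rfl | hm
    · simp [act]
    · rw [← e_surj m]
      rcases Nat.mod_two_eq_zero_or_one m with h | h
      · have : decide (m % 2 = 1) = false := by simp [h]
        rw [this, act_false_e, act_false_e, act_false_e, ih (m / 2) (by omega)]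
        congr 2
        cases p <;> cases q <;> cases p' <;> cases q' <;> rfl
      · have : decide (m % 2 = 1) = true := by simp [h]
        rw [this, act_true_e, act_true_e, act_true_e, aif_aif]

theorem act_ff (m : ℕ) : act false false m = m := by
  induction m using Nat.strong_induction_on with
  | _ m ih =>
    rcases Nat.eq_zero_or_pos m with rfl | hm
    · simp [act]
    · rw [← e_surj m]
      rcases Nat.mod_two_eq_zero_or_one m with h | h
      · have : decide (m % 2 = 1) = false := by simp [h]
        rw [this, act_false_e, Bool.xor_false, ih (m / 2) (by omega)]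
      · have : decide (m % 2 = 1) = true := by simp [h]
        rw [this, act_true_e]; simp [aif]

theorem act_invol (p q : Bool) (m : ℕ) : act p q (act p q m) = m := by
  rw [act_act]; simp [act_ff]

/-- the big group -/
abbrev PG : Type := ℕ → Equiv.Perm (ℕ × Bool)

def gA : PG := fun _ => Function.Involutive.toPerm (fun x => (flp x.1, x.2)) (by
  intro x; simp [flp_flp])

def gV (p q : Bool) : PG := fun _ => Function.Involutive.toPerm (fun x => (act p q x.1, x.2)) (by
  intro x; simp [act_invol])

def lamp (φ : ℕ → ℕ → Bool) : PG := fun ξ =>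
  Function.Involutive.toPerm (fun x => (x.1, xor x.2 (φ ξ x.1))) (by
    intro x; simp)

def gX : PG := lamp (fun ξ η => decide (η = ξ))

@[simp] theorem gA_apply (ξ η : ℕ) (t : Bool) : gA ξ (η, t) = (flp η, t) := rfl
@[simp] theorem gV_apply (p q : Bool) (ξ η : ℕ) (t : Bool) : gV p q ξ (η, t) = (act p q η, t) := rfl
@[simp] theorem lamp_apply (φ : ℕ → ℕ → Bool) (ξ η : ℕ) (t : Bool) :
    lamp φ ξ (η, t) = (η, xor t (φ ξ η)) := rfl

/-- indices of the eight lamps -/
abbrev I : Type := Bool × Bool × Bool

def pos (i : I) (ξ : ℕ) : ℕ := act i.1 i.2.1 (aif i.2.2 ξ)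

def lampOf (F : (I → Bool) → Bool) : ℕ → ℕ → Bool := fun ξ η => F (fun i => decide (η = pos i ξ))

def ph (F : (I → Bool) → Bool) (p q : Bool) : PG := lamp (lampOf F) * gV p q

theorem ph_apply (F : (I → Bool) → Bool) (p q : Bool) (ξ η : ℕ) (t : Bool) :
    ph F p q ξ (η, t) = (act p q η, xor t (lampOf F ξ (act p q η))) := rfl

theorem PG_ext {g h : PG} (H : ∀ ξ η t, g ξ (η, t) = h ξ (η, t)) : g = h := by
  funext ξ
  refine Equiv.ext ?_
  rintro ⟨η, t⟩
  exact H ξ η t

theorem ph_one : ph (fun _ => false) false false = 1 := by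
  refine PG_ext ?_
  intro ξ η t
  rw [ph_apply, act_ff]
  simp [lampOf]

theorem ph_mul (F F' : (I → Bool) → Bool) (p q p' q' : Bool) :
    ∃ F'', ph F p q * ph F' p' q' = ph F'' (xor p p') (xor q q') := by
  refine ⟨fun z => xor (F' (fun i => z (xor p i.1, xor q i.2.1, i.2.2))) (F z), ?_⟩
  refine PG_ext ?_
  intro ξ η t
  show ph F p q ξ (ph F' p' q' ξ (η, t)) = _
  rw [ph_apply, ph_apply, ph_apply, act_act]
  refine Prod.ext rfl ?_
  simp only [lampOf]
  have : (fun i : I => decide (act p' q' η = pos i ξ))
      = (fun i : I => decide (act (xor p p') (xor q q') η = pos (xor p i.1, xor q i.2.1, i.2.2) ξ)) := by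
    funext i
    have : act (xor p p') (xor q q') η = pos (xor p i.1, xor q i.2.1, i.2.2) ξ ↔
        act p' q' η = pos i ξ := by
      constructor
      · intro h
        have h2 := congrArg (act p q) h
        simp only [pos] at h2 ⊢
        rw [act_act, act_act] at h2
        simpa [← Bool.xor_assoc] using h2
      · intro h
        have h2 := congrArg (act p q) h
        simp only [pos] at h2 ⊢
        rw [act_act, act_act] at h2
        exact h2
    simp [this]
  rw [this]
  simp

/-- the weight of a directed letter -/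
def wt (p q : Bool) : ℕ := if p then (if q then 3 else 2) else (if q then 1 else 0)

theorem wt_sub (p q p' q' : Bool) : wt (xor p p') (xor q q') ≤ wt p q + wt p' q' := by
  cases p <;> cases q <;> cases p' <;> cases q' <;> simp [wt]

/-- `HasWt g W` : `g` can be written with weight at most `W` -/
inductive HasWt : PG → ℕ → Prop
  | base (F : (I → Bool) → Bool) (p q : Bool) (W : ℕ) (h : wt p q ≤ W) : HasWt (ph F p q) W
  | step (F : (I → Bool) → Bool) (p q : Bool) (g : PG) (W W' : ℕ) (hg : HasWt g W)
      (h : W + wt p q + 3 ≤ W') : HasWt (ph F p q * (gA * g)) W'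

theorem HasWt.mono {g : PG} {W W' : ℕ} (h : HasWt g W) (hW : W ≤ W') : HasWt g W' := by
  cases h with
  | base F p q _ h => exact .base F p q W' (h.trans hW)
  | step F p q g W₀ _ hg h => exact .step F p q g W₀ W' hg (h.trans hW)

theorem HasWt.ph_mul {g : PG} {W : ℕ} (h : HasWt g W) (F : (I → Bool) → Bool) (p q : Bool) :
    HasWt (ph F p q * g) (W + wt p q) := by
  cases h with
  | base F' p' q' _ h =>
    obtain ⟨F'', h''⟩ := MP_e05d43_al.ph_mul F F' p q p' q'
    rw [h'']
    refine .base _ _ _ _ ?_
    have := wt_sub p q p' q'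
    omega
  | step F' p' q' g W₀ _ hg h =>
    obtain ⟨F'', h''⟩ := MP_e05d43_al.ph_mul F F' p q p' q'
    rw [← mul_assoc, h'']
    refine .step _ _ _ _ W₀ _ hg ?_
    have := wt_sub p q p' q'
    omega

theorem HasWt.one : HasWt 1 0 := by
  rw [← ph_one]; exact .base _ _ _ _ (by simp [wt])

theorem HasWt.gA_mul {g : PG} {W : ℕ} (h : HasWt g W) : HasWt (gA * g) (W + 3) := by
  have := HasWt.step (fun _ => false) false false g W (W + 3) h (by simp [wt])
  rwa [ph_one, one_mul] at this

theorem HasWt.gV_mul {g : PG} {W : ℕ} (h : HasWt g W) (p q : Bool) :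
    HasWt (gV p q * g) (W + 3) := by
  have h1 := h.ph_mul (fun _ => false) p q
  have h2 : ph (fun _ => false) p q = gV p q := by
    refine PG_ext ?_
    intro ξ η t
    rw [ph_apply]
    simp [lampOf]
  rw [h2] at h1
  refine h1.mono ?_
  have : wt p q ≤ 3 := by cases p <;> cases q <;> simp [wt]
  omega

theorem HasWt.gX_mul {g : PG} {W : ℕ} (h : HasWt g W) : HasWt (gX * g) W := by
  have h1 := h.ph_mul (fun z => z (false, false, false)) false false
  have h2 : ph (fun z => z (false, false, false)) false false = gX := by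
    refine PG_ext ?_
    intro ξ η t
    rw [ph_apply, act_ff]
    simp [lampOf, gX, pos, aif, act_ff]
  rw [h2] at h1
  simpa [wt] using h1

/-- sections of `g` over the points whose first coordinate starts with the digit `i` -/
def Sec (i : Bool) (g : PG) (s : Bool → PG) (σ : Bool) : Prop :=
  ∀ ξ v η t, g (e i ξ) (e v η, t) = (e (xor v σ) (s v ξ (η, t)).1, (s v ξ (η, t)).2)

theorem Sec.mul {i : Bool} {g h : PG} {s u : Bool → PG} {σ τ : Bool} (hg : Sec i g s σ)
    (hh : Sec i h u τ) : Sec i (g * h) (fun v => s (xor v τ) * u v) (xor τ σ) := by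
  intro ξ v η t
  show g (e i ξ) (h (e i ξ) (e v η, t)) = _
  rw [hh ξ v η t, hg ξ]
  simp

theorem Sec.gA (i : Bool) : Sec i gA (fun _ => 1) true := by
  intro ξ v η t
  simp [flp_e]

theorem Sec.ph (i : Bool) (F : (I → Bool) → Bool) (p q : Bool) :
    ∃ F0 F1, Sec i (ph F p q)
      (fun v => if v then MP_e05d43_al.ph F1 false false * (if p then MP_e05d43_al.gA else 1)
        else MP_e05d43_al.ph F0 q (xor p q)) false := by
  refine ⟨fun z => F (fun k => if xor i k.2.2 then false else z (k.2.1, xor k.1 k.2.1, false)),
    fun z => F (fun k => if xor i k.2.2 then z (false, false, k.1) else false), ?_⟩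
  intro ξ v η t
  cases v
  · simp only [Bool.false_eq_true, if_false, ph_apply, act_false_e, Bool.xor_false]
    congr 2
    simp only [lampOf]
    congr 1
    funext k
    simp only [pos, aif_e]
    cases hk : (xor i k.2.2)
    · simp [act_false_e, e_inj, aif]
    · simp [act_true_e, e_inj]
  · have hap : (MP_e05d43_al.ph (fun z => F (fun k => if xor i k.2.2 then z (false, false, k.1) else false))
        false false * (if p then MP_e05d43_al.gA else 1)) ξ (η, t) =
        (aif p η, xor t (lampOf (fun z => F (fun k => if xor i k.2.2 then z (false, false, k.1)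
          else false)) ξ (aif p η))) := by
      cases p
      · simp [ph_apply, act_ff, aif]
      · show MP_e05d43_al.ph _ false false ξ (MP_e05d43_al.gA ξ (η, t)) = _
        simp [ph_apply, act_ff, aif]
    simp only [if_true, hap, ph_apply, act_true_e, Bool.xor_false]
    congr 2
    simp only [lampOf]
    congr 1
    funext k
    simp only [pos, aif_e]
    cases hk : (xor i k.2.2)
    · simp [act_false_e, e_inj]
    · simp [act_true_e, e_inj, act_ff]

theorem HasWt.sec_ph {g : PG} {W : ℕ} (hg : HasWt g W) (F0 F1 : (I → Bool) → Bool) (p q v : Bool) :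
    HasWt ((if v then MP_e05d43_al.ph F1 false false * (if p then MP_e05d43_al.gA else 1)
        else MP_e05d43_al.ph F0 q (xor p q)) * g)
      (W + (if v then (if p then 3 else 0) else wt q (xor p q))) := by
  cases v
  · simpa using hg.ph_mul F0 q (xor p q)
  · cases p
    · simpa [wt] using hg.ph_mul F1 false false
    · have := HasWt.step F1 false false g W (W + 3) hg (by simp [wt])
      simpa [mul_assoc] using this

/-- The contraction inequality. -/
theorem HasWt.sections {g : PG} {W : ℕ} (h : HasWt g W) (i : Bool) :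
    ∃ (s : Bool → PG) (σ : Bool) (w : Bool → ℕ), (∀ v, HasWt (s v) (w v)) ∧
      6 * (w false + w true) ≤ 5 * (W + 3) ∧ Sec i g s σ := by
  induction h with
  | base F p q W h =>
    obtain ⟨F0, F1, hS⟩ := Sec.ph i F p q
    refine ⟨_, _, fun v => (if v then (if p then 3 else 0) else wt q (xor p q)), ?_, ?_, hS⟩
    · intro v
      have := HasWt.one.sec_ph F0 F1 p q v
      simpa using this
    · cases p <;> cases q <;> simp [wt] at h ⊢ <;> omega
  | step F p q g W W' hg h ih =>
    obtain ⟨s, σ, w, hs, hw, hS⟩ := ih
    obtain ⟨F0, F1, hP⟩ := Sec.ph i F p q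
    have hall := hP.mul ((Sec.gA i).mul hS)
    refine ⟨_, _, fun v => w v + (if (xor v (xor σ true)) then (if p then 3 else 0)
      else wt q (xor p q)), ?_, ?_, hall⟩
    · intro v
      have := (hs v).sec_ph F0 F1 p q (xor v (xor σ true))
      simpa using this
    · cases σ <;> cases p <;> cases q <;> simp [wt] at h ⊢ <;> omega

end Pool.Agent.Work.MP_e05d43_al
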