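import Mathlib

set_option autoImplicit false
open scoped Pointwise
open Filter Topology

namespace Pool.Agent.Work.MP_e05d43_al

/-- counting lemma: images -/
theorem ncard_image_le_of_factor {α β γ : Type*} {s : Set α} (hs : s.Finite) (f : α → β) (g : α → γ)
    (h : ∀ x ∈ s, ∀ y ∈ s, f x = f y → g x = g y) : (g '' s).ncard ≤ (f '' s).ncard := by
  obtain ⟨s', hs', hb⟩ := Set.exists_subset_bijOn s g
  rw [← hb.image_eq, hb.injOn.ncard_image]
  refine Set.ncard_le_ncard_of_injOn f (fun a ha => ⟨a, hs' ha, rfl⟩) ?_ (hs.image f)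
  intro x hx y hy hxy
  exact hb.injOn hx hy (h x (hs' hx) y (hs' hy) hxy)

theorem ncard_image_le_mul {α β γ δ : Type*} {s : Set α} (hs : s.Finite) (f : α → β) (g : α → γ)
    (k : α → δ) (h : ∀ x ∈ s, ∀ y ∈ s, f x = f y → g x = g y → k x = k y) :
    (k '' s).ncard ≤ (f '' s).ncard * (g '' s).ncard := by
  rw [← Set.ncard_prod]
  have h1 : (k '' s).ncard ≤ ((fun x => (f x, g x)) '' s).ncard := by
    refine ncard_image_le_of_factor hs _ _ ?_
    intro x hx y hy hxy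
    exact h x hx y hy (congrArg Prod.fst hxy) (congrArg Prod.snd hxy)
  refine h1.trans (Set.ncard_le_ncard ?_ ((hs.image f).prod (hs.image g)))
  rintro _ ⟨x, hx, rfl⟩
  exact ⟨⟨x, hx, rfl⟩, ⟨x, hx, rfl⟩⟩

section Rate

variable {Γ : Type*} [Group Γ]

theorem finite_pow {T : Set Γ} (hT : T.Finite) (k : ℕ) : (T ^ k).Finite := by
  induction k with
  | zero => simp
  | succ n ih => rw [pow_succ]; exact ih.mul hT

theorem one_mem_pow {T : Set Γ} (h1 : (1 : Γ) ∈ T) (k : ℕ) : (1 : Γ) ∈ T ^ k := by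
  induction k with
  | zero => simp
  | succ n ih => rw [pow_succ]; exact ⟨1, ih, 1, h1, one_mul 1⟩

theorem ncard_pow_pos {T : Set Γ} (hT : T.Finite) (h1 : (1 : Γ) ∈ T) (k : ℕ) :
    0 < (T ^ k).ncard :=
  (Set.ncard_pos (finite_pow hT k)).2 ⟨1, one_mem_pow h1 k⟩

theorem ncard_mul_le' {s t : Set Γ} : (s * t).ncard ≤ s.ncard * t.ncard := by
  simpa [Set.ncard_def, Nat.card_coe_set_eq] using (Set.natCard_mul_le (s := s) (t := t))

/-- logarithm of the number of elements of `T ^ k` -/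
noncomputable def lg (T : Set Γ) (k : ℕ) : ℝ := Real.log ((T ^ k).ncard : ℝ)

theorem lg_nonneg (T : Set Γ) (k : ℕ) : 0 ≤ lg T k := Real.log_natCast_nonneg _

theorem lg_subadditive {T : Set Γ} (hT : T.Finite) (h1 : (1 : Γ) ∈ T) : Subadditive (lg T) := by
  intro m n
  unfold lg
  have hm : (0 : ℝ) < ((T ^ m).ncard : ℝ) := by exact_mod_cast ncard_pow_pos hT h1 m
  have hn : (0 : ℝ) < ((T ^ n).ncard : ℝ) := by exact_mod_cast ncard_pow_pos hT h1 n
  rw [← Real.log_mul hm.ne' hn.ne']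
  refine Real.log_le_log (by exact_mod_cast ncard_pow_pos hT h1 (m + n)) ?_
  rw [pow_add]
  exact_mod_cast ncard_mul_le'

theorem lg_bdd (T : Set Γ) : BddBelow (Set.range fun n : ℕ => lg T n / (n : ℝ)) := by
  refine ⟨0, ?_⟩
  rintro _ ⟨n, rfl⟩
  exact div_nonneg (lg_nonneg T n) (Nat.cast_nonneg n)

/-- `IsRate T L` : the exponential growth rate of `T ^ k` is `exp L`. -/
def IsRate (T : Set Γ) (L : ℝ) : Prop := Tendsto (fun k : ℕ => lg T k / (k : ℝ)) atTop (𝓝 L)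

theorem exists_isRate {T : Set Γ} (hT : T.Finite) (h1 : (1 : Γ) ∈ T) :
    ∃ L, IsRate T L ∧ ∀ k : ℕ, L * k ≤ lg T k := by
  refine ⟨(lg_subadditive hT h1).lim, (lg_subadditive hT h1).tendsto_lim (lg_bdd T), ?_⟩
  intro k
  rcases Nat.eq_zero_or_pos k with rfl | hk
  · simpa using lg_nonneg T 0
  · have := (lg_subadditive hT h1).lim_le_div (lg_bdd T) hk.ne'
    rwa [le_div_iff₀ (by exact_mod_cast hk)] at this

end Rate

section Fam

variable {F : Type*} [Group F] (B : Set F)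

/-- the growth exponent of the image of `B` under `φ` -/
noncomputable def rate {Γ : Type*} [Group Γ] (φ : F →* Γ) : ℝ :=
  limUnder atTop (fun n : ℕ => lg (φ '' B) n / (n : ℝ))

variable {B}

theorem rate_spec (hB : B.Finite) (h1 : (1 : F) ∈ B) {Γ : Type*} [Group Γ] (φ : F →* Γ) :
    IsRate (φ '' B) (rate B φ) := by
  have hT : (φ '' B).Finite := hB.image φ
  have h1' : (1 : Γ) ∈ φ '' B := ⟨1, h1, map_one φ⟩
  have := (lg_subadditive hT h1').tendsto_lim (lg_bdd _)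
  unfold IsRate rate
  rw [this.limUnder_eq]
  exact this

theorem rate_mul_le (hB : B.Finite) (h1 : (1 : F) ∈ B) {Γ : Type*} [Group Γ] (φ : F →* Γ) (k : ℕ) :
    rate B φ * k ≤ lg (φ '' B) k := by
  have hT : (φ '' B).Finite := hB.image φ
  have h1' : (1 : Γ) ∈ φ '' B := ⟨1, h1, map_one φ⟩
  obtain ⟨L, hL, hL'⟩ := exists_isRate hT h1'
  rw [tendsto_nhds_unique (rate_spec hB h1 φ) hL]
  exact hL' k

theorem rate_nonneg (hB : B.Finite) (h1 : (1 : F) ∈ B) {Γ : Type*} [Group Γ] (φ : F →* Γ) :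
    0 ≤ rate B φ :=
  ge_of_tendsto' (rate_spec hB h1 φ) (fun k => div_nonneg (lg_nonneg _ k) (Nat.cast_nonneg k))

theorem image_pow_eq {Γ : Type*} [Group Γ] (φ : F →* Γ) (k : ℕ) :
    (φ '' B) ^ k = φ '' (B ^ k) := (Set.image_pow φ B k).symm

theorem lg_mono (hB : B.Finite) (h1 : (1 : F) ∈ B) {Γ Γ' : Type*} [Group Γ] [Group Γ']
    (φ : F →* Γ) (ψ : F →* Γ') (h : φ.ker ≤ ψ.ker) (k : ℕ) : lg (ψ '' B) k ≤ lg (φ '' B) k := by
  unfold lg
  rw [image_pow_eq, image_pow_eq]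
  refine Real.log_le_log ?_ ?_
  · have : 0 < (ψ '' (B ^ k)).ncard :=
      (Set.ncard_pos ((finite_pow hB k).image ψ)).2 ⟨1, 1, one_mem_pow h1 k, map_one ψ⟩
    exact_mod_cast this
  · have := ncard_image_le_of_factor (finite_pow hB k) φ ψ (by
      intro x _ y _ hxy
      have : x⁻¹ * y ∈ φ.ker := by simp [MonoidHom.mem_ker, hxy]
      have := h this
      rw [MonoidHom.mem_ker, map_mul, map_inv, inv_mul_eq_one] at this
      exact this)
    exact_mod_cast this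

theorem rate_mono (hB : B.Finite) (h1 : (1 : F) ∈ B) {Γ Γ' : Type*} [Group Γ] [Group Γ']
    (φ : F →* Γ) (ψ : F →* Γ') (h : φ.ker ≤ ψ.ker) : rate B ψ ≤ rate B φ := by
  refine le_of_tendsto_of_tendsto' (rate_spec hB h1 ψ) (rate_spec hB h1 φ) ?_
  intro k
  exact div_le_div_of_nonneg_right (lg_mono hB h1 φ ψ h k) (Nat.cast_nonneg k)

theorem rate_subadd (hB : B.Finite) (h1 : (1 : F) ∈ B) {Γ Γ' Γ'' : Type*} [Group Γ] [Group Γ']
    [Group Γ''] (φ : F →* Γ) (ψ : F →* Γ') (θ : F →* Γ'') (h : φ.ker ⊓ ψ.ker ≤ θ.ker) :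
    rate B θ ≤ rate B φ + rate B ψ := by
  refine le_of_tendsto_of_tendsto' (rate_spec hB h1 θ)
    ((rate_spec hB h1 φ).add (rate_spec hB h1 ψ)) ?_
  intro k
  rw [← add_div]
  refine div_le_div_of_nonneg_right ?_ (Nat.cast_nonneg k)
  unfold lg
  rw [image_pow_eq, image_pow_eq, image_pow_eq]
  have pos : ∀ {Δ : Type _} [Group Δ] (χ : F →* Δ), (0 : ℝ) < ((χ '' (B ^ k)).ncard : ℝ) := by
    intro Δ _ χ
    have : 0 < (χ '' (B ^ k)).ncard :=
      (Set.ncard_pos ((finite_pow hB k).image χ)).2 ⟨1, 1, one_mem_pow h1 k, map_one χ⟩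
    exact_mod_cast this
  have pos' : ∀ {Δ : Type _} [Group Δ] (χ : F →* Δ), (0 : ℝ) < ((χ '' (B ^ k)).ncard : ℝ) := by
    intro Δ _ χ
    have : 0 < (χ '' (B ^ k)).ncard :=
      (Set.ncard_pos ((finite_pow hB k).image χ)).2 ⟨1, 1, one_mem_pow h1 k, map_one χ⟩
    exact_mod_cast this
  have pos'' : (0 : ℝ) < ((θ '' (B ^ k)).ncard : ℝ) := by
    have : 0 < (θ '' (B ^ k)).ncard :=
      (Set.ncard_pos ((finite_pow hB k).image θ)).2 ⟨1, 1, one_mem_pow h1 k, map_one θ⟩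
    exact_mod_cast this
  rw [← Real.log_mul (pos φ).ne' (pos' ψ).ne']
  refine Real.log_le_log pos'' ?_
  have := ncard_image_le_mul (finite_pow hB k) φ ψ θ (by
      intro x _ y _ hxy hxy'
      have : x⁻¹ * y ∈ φ.ker ⊓ ψ.ker :=
        ⟨by simp [hxy], by simp [hxy']⟩
      have := h this
      rw [MonoidHom.mem_ker, map_mul, map_inv, inv_mul_eq_one] at this
      exact this)
  exact_mod_cast this

end Fam

end Pool.Agent.Work.MP_e05d43_al
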